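import Pool.Agent.Lib_helper99.TJG.L7a
import Pool.Agent.Lib_helper40.TJ.V4

/-!
# The root of unity at the node
-/

set_option autoImplicit false
set_option linter.unusedSectionVars false

namespace Pool.Agent.TJG

open Pool.Agent.TJ (ff Tor gax Res0)
open IsLocalRing (residue)

section

variable {K : Type*} [Field K] {O : ValuationSubring K}

/-- an element of the valuation ring -/
def inO (a : K) (h : O.valuation a ≤ 1) : O := ⟨a, (O.valuation_le_one_iff a).mp h⟩

lemma res_zero_iff (a : O) : residue O a = 0 ↔ O.valuation (a : K) < 1 := by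
  rw [IsLocalRing.residue_eq_zero_iff, ValuationSubring.valuation_lt_one_iff]

lemma res_eq_iff (a b : O) : residue O a = residue O b ↔ O.valuation ((a : K) - b) < 1 := by
  rw [← sub_eq_zero, ← map_sub, res_zero_iff]
  rfl

end

variable {K : Type*} [Field K] [CharZero K] {O : ValuationSubring K} {p : ℕ} {B : K}
  {x : ZMod p → K}

/-- the reduction of the abscissae -/
noncomputable def yy (O : ValuationSubring K) (x : ZMod p → K)
    (h1 : ∀ c, c ≠ 0 → O.valuation (x c) = 1) (c : ZMod p) : IsLocalRing.ResidueField O := by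
  classical
  exact if h : c = 0 then 0 else residue O (inO (x c) (h1 c h).le)

lemma yy_of (h1 : ∀ c, c ≠ 0 → O.valuation (x c) = 1) {c : ZMod p} (hc : c ≠ 0) :
    yy O x h1 c = residue O (inO (x c) (h1 c hc).le) := by
  unfold yy
  rw [dif_neg hc]

lemma four_ne (hv : Res0 O.valuation) : (4 : IsLocalRing.ResidueField O) ≠ 0 := by
  have h : residue O (4 : O) ≠ 0 := by
    intro h
    rw [res_zero_iff] at h
    have h4 := hv.four
    have e : ((4 : O) : K) = 4 := rfl
    rw [e, h4] at h
    exact lt_irrefl _ h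
  have e : residue O (4 : O) = 4 := map_ofNat _ _
  rwa [e] at h

theorem nod_of (hp : p.Prime) (h5 : 5 ≤ p) (t : Tor p 1 B x)
    (hB : O.valuation B < 1) (h1 : ∀ c, c ≠ 0 → O.valuation (x c) = 1)
    (h2 : ∀ c, c ≠ 0 → O.valuation (ff 1 B (x c)) = 1) :
    Nod p (yy O x h1) := by
  have hB0 : residue O (inO B hB.le) = 0 := (res_zero_iff _).mpr hB
  have hmul2 : ∀ c : ZMod p, c ≠ 0 → 2 * c ≠ 0 := fun c hc => TJ.two_mul_ne hp h5 hc
  refine ⟨?_, ?_, ?_, ?_, ?_, ?_⟩
  · intro c
    by_cases hc : c = 0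
    · rw [hc, neg_zero]
    · rw [yy_of h1 hc, yy_of h1 (neg_ne_zero.mpr hc)]
      congr 1
      exact Subtype.ext (t.even c)
  · intro c hc
    rw [yy_of h1 hc]
    intro h
    rw [res_zero_iff] at h
    exact (ne_of_lt h) (h1 c hc)
  · intro c hc
    rw [yy_of h1 hc]
    intro h
    have h3 : residue O (inO (x c) (h1 c hc).le ^ 2 * (inO (x c) (h1 c hc).le + 1) +
        inO B hB.le) = 0 := by
      rw [map_add, hB0, add_zero, map_mul, map_add, map_one, h, mul_zero]
    rw [res_zero_iff] at h3
    have e : ((inO (x c) (h1 c hc).le ^ 2 * (inO (x c) (h1 c hc).le + 1) + inO B hB.le : O) : K) =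
        ff 1 B (x c) := by
      show x c ^ 2 * (x c + 1) + B = ff 1 B (x c)
      unfold ff
      ring
    rw [e] at h3
    exact (ne_of_lt h3) (h2 c hc)
  · intro c hc
    have hc2 := hmul2 c hc
    rw [yy_of h1 hc, yy_of h1 hc2]
    have e := t.dbl c hc
    have e' : inO (x (2 * c)) (h1 _ hc2).le * (4 * (inO (x c) (h1 c hc).le ^ 2 *
        (inO (x c) (h1 c hc).le + 1) + inO B hB.le)) =
        inO (x c) (h1 c hc).le ^ 4 - 8 * inO B hB.le * inO (x c) (h1 c hc).le -
          4 * inO B hB.le := by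
      apply Subtype.ext
      show x (2 * c) * (4 * (x c ^ 2 * (x c + 1) + B)) = x c ^ 4 - 8 * B * x c - 4 * B
      unfold ff at e
      linear_combination e
    have e'' := congrArg (residue O) e'
    simp only [map_mul, map_add, map_sub, map_pow, map_one, map_ofNat, hB0] at e''
    linear_combination e''
  · intro b c hb hc hbc hbc'
    have hs1 : b + c ≠ 0 := fun h => hbc' (eq_neg_of_add_eq_zero_left h)
    have hs2 : b - c ≠ 0 := sub_ne_zero.mpr hbc
    rw [yy_of h1 hb, yy_of h1 hc, yy_of h1 hs1, yy_of h1 hs2]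
    have e := t.sum b c hb hc hbc hbc'
    have e' : (inO (x (b + c)) (h1 _ hs1).le + inO (x (b - c)) (h1 _ hs2).le) *
        (inO (x b) (h1 b hb).le - inO (x c) (h1 c hc).le) ^ 2 =
        2 * inO (x b) (h1 b hb).le * inO (x c) (h1 c hc).le *
          (inO (x b) (h1 b hb).le + inO (x c) (h1 c hc).le + 2) + 4 * inO B hB.le := by
      apply Subtype.ext
      show (x (b + c) + x (b - c)) * (x b - x c) ^ 2 =
        2 * x b * x c * (x b + x c + 2) + 4 * B
      linear_combination e
    have e'' := congrArg (residue O) e'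
    simp only [map_mul, map_add, map_sub, map_pow, map_ofNat, hB0] at e''
    linear_combination e''
  · intro b c hb hc hbc hbc'
    have hs1 : b + c ≠ 0 := fun h => hbc' (eq_neg_of_add_eq_zero_left h)
    have hs2 : b - c ≠ 0 := sub_ne_zero.mpr hbc
    rw [yy_of h1 hb, yy_of h1 hc, yy_of h1 hs1, yy_of h1 hs2]
    have e := t.prod b c hb hc hbc hbc'
    have e' : inO (x (b + c)) (h1 _ hs1).le * inO (x (b - c)) (h1 _ hs2).le *
        (inO (x b) (h1 b hb).le - inO (x c) (h1 c hc).le) ^ 2 =
        (inO (x b) (h1 b hb).le * inO (x c) (h1 c hc).le) ^ 2 -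
          4 * inO B hB.le * (inO (x b) (h1 b hb).le + inO (x c) (h1 c hc).le) -
            4 * inO B hB.le := by
      apply Subtype.ext
      show x (b + c) * x (b - c) * (x b - x c) ^ 2 =
        (x b * x c) ^ 2 - 4 * B * (x b + x c) - 4 * B
      linear_combination e
    have e'' := congrArg (residue O) e'
    simp only [map_mul, map_add, map_sub, map_pow, map_ofNat, hB0] at e''
    linear_combination e''

/-- an element `U` with `U^p = 1` in the residue field is close to a root of unity -/
lemma near_root [IsAlgClosed K] (hp : p.Prime) {U : K}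
    (hU : O.valuation U = 1) (h : O.valuation (U ^ p - 1) < 1) :
    ∃ z : K, z ^ p = 1 ∧ O.valuation (U - z) < 1 := by
  have hne : NeZero (p : K) := ⟨by exact_mod_cast hp.ne_zero⟩
  obtain ⟨ζ, hζ⟩ := HasEnoughRootsOfUnity.exists_primitiveRoot K p
  have hprod := Polynomial.X_pow_sub_one_eq_prod hp.pos hζ
  have h1 := congrArg (Polynomial.eval U) hprod
  rw [Polynomial.eval_sub, Polynomial.eval_pow, Polynomial.eval_X, Polynomial.eval_one,
    Polynomial.eval_prod] at h1
  simp only [Polynomial.eval_sub, Polynomial.eval_X, Polynomial.eval_C] at h1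
  by_contra hn
  push Not at hn
  have h2 : O.valuation (U ^ p - 1) = 1 := by
    rw [h1, map_prod]
    refine Finset.prod_eq_one fun z hz => ?_
    rw [Polynomial.mem_nthRootsFinset hp.pos] at hz
    have hz1 : O.valuation z = 1 := by
      have h3 := congrArg O.valuation hz
      rw [map_pow, map_one] at h3
      exact (pow_eq_one_iff_of_nonneg zero_le hp.ne_zero).mp h3
    apply le_antisymm
    · exact (Valuation.map_sub _ _ _).trans (max_le hU.le hz1.le)
    · exact hn z hz
  rw [h2] at h
  exact lt_irrefl _ h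

/-- **the root of unity** -/
theorem root [IsAlgClosed K] (hv : Res0 O.valuation) (hp : p.Prime) (h5 : 5 ≤ p)
    (t : Tor p 1 B x) (hB : O.valuation B < 1)
    (h : ∀ c, c ≠ 0 → O.valuation (x c) = 1 ∧ O.valuation (ff 1 B (x c)) = 1) :
    ∃ z : K, IsPrimitiveRoot z p ∧ ∀ c : ZMod p, c ≠ 0 →
      O.valuation (x c - 4 * z ^ c.val / (z ^ c.val - 1) ^ 2) < 1 := by
  have h1 : ∀ c, c ≠ 0 → O.valuation (x c) = 1 := fun c hc => (h c hc).1
  have h2 : ∀ c, c ≠ 0 → O.valuation (ff 1 B (x c)) = 1 := fun c hc => (h c hc).2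
  have N := nod_of hp h5 t hB h1 h2
  have h4 := four_ne hv
  have h10 : (1 : ZMod p) ≠ 0 := by
    have : Fact p.Prime := ⟨hp⟩
    exact one_ne_zero
  have hx0 : x 1 ≠ 0 := by
    intro h0
    have := h1 1 h10
    rw [h0, map_zero] at this
    exact zero_ne_one this
  obtain ⟨s, hs⟩ := IsAlgClosed.exists_pow_nat_eq (1 + x 1) (n := 2) (by norm_num)
  have hsle : O.valuation s ≤ 1 := by
    by_contra hc
    rw [not_le] at hc
    have h3 : 1 < O.valuation s ^ 2 := one_lt_pow₀ hc (by norm_num)
    rw [← map_pow, hs] at h3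
    have h6 : O.valuation (1 + x 1) ≤ 1 :=
      (Valuation.map_add _ _ _).trans (max_le (by rw [map_one]) (h1 1 h10).le)
    exact absurd h3 (not_lt.mpr h6)
  have hprod : (s + 1) ^ 2 / x 1 * ((s - 1) ^ 2 / x 1) = 1 := by
    field_simp
    linear_combination (s ^ 2 + x 1 - 1) * hs
  have hUle : O.valuation ((s + 1) ^ 2 / x 1) ≤ 1 := by
    rw [map_div₀, h1 1 h10, div_one, map_pow]
    exact pow_le_one₀ zero_le ((Valuation.map_add _ _ _).trans (max_le hsle (by rw [map_one])))
  have hUle' : O.valuation ((s - 1) ^ 2 / x 1) ≤ 1 := by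
    rw [map_div₀, h1 1 h10, div_one, map_pow]
    exact pow_le_one₀ zero_le ((Valuation.map_sub _ _ _).trans (max_le hsle (by rw [map_one])))
  obtain ⟨U, hU⟩ : ∃ U : K, U = (s + 1) ^ 2 / x 1 := ⟨_, rfl⟩
  obtain ⟨V, hV⟩ : ∃ V : K, V = (s - 1) ^ 2 / x 1 := ⟨_, rfl⟩
  rw [← hU, ← hV] at hprod
  rw [← hU] at hUle
  rw [← hV] at hUle'
  have hUV : x 1 * (U + V) = 2 * x 1 + 4 := by
    rw [hU, hV]
    field_simp
    linear_combination 2 * hs
  have hUv : O.valuation U = 1 := by
    apply le_antisymm hUle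
    by_contra hc
    rw [not_le] at hc
    have h3 : O.valuation U * O.valuation V < 1 :=
      lt_of_le_of_lt (mul_le_of_le_one_right' hUle') hc
    rw [← map_mul, hprod, map_one] at h3
    exact lt_irrefl _ h3
  -- the residue classes
  obtain ⟨u, hu⟩ : ∃ u, u = residue O (inO U hUle) := ⟨_, rfl⟩
  obtain ⟨w, hw⟩ : ∃ w, w = residue O (inO V hUle') := ⟨_, rfl⟩
  have huw : u * w = 1 := by
    rw [hu, hw, ← map_mul]
    have : inO U hUle * inO V hUle' = (1 : O) := Subtype.ext hprod
    rw [this, map_one]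
  have hu0 : u ≠ 0 := by
    rintro rfl
    rw [zero_mul] at huw
    exact zero_ne_one huw
  have hwu : w = u⁻¹ := (inv_eq_of_mul_eq_one_right huw).symm
  have hy1 : 2 + 4 / yy O x h1 1 = u + u⁻¹ := by
    have e : inO (x 1) (h1 1 h10).le * (inO U hUle + inO V hUle') =
        2 * inO (x 1) (h1 1 h10).le + 4 := Subtype.ext hUV
    have e' := congrArg (residue O) e
    simp only [map_mul, map_add, map_ofNat, ← hu, ← hw, ← yy_of h1 h10] at e'
    have hy := N.ne0 1 h10
    rw [← hwu]
    field_simp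
    linear_combination -e'
  have hup : u ^ p = 1 := N.unity h5 hu0 hy1
  have hUp : O.valuation (U ^ p - 1) < 1 := by
    have e : residue O (inO U hUle ^ p) = residue O 1 := by
      rw [map_pow, ← hu, hup, map_one]
    rw [res_eq_iff] at e
    exact e
  obtain ⟨z, hz, hzU⟩ := near_root hp hUv hUp
  have hzv : O.valuation z = 1 := by
    have h3 := congrArg O.valuation hz
    rw [map_pow, map_one] at h3
    exact (pow_eq_one_iff_of_nonneg zero_le hp.ne_zero).mp h3
  have hzu : residue O (inO z hzv.le) = u := by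
    rw [hu, eq_comm, res_eq_iff]
    exact hzU
  have hu1 : u ≠ 1 := by
    intro h0
    rw [h0, inv_one] at hy1
    have hy := N.ne0 1 h10
    have h6 : 4 / yy O x h1 1 = 0 := by linear_combination hy1
    rcases div_eq_zero_iff.mp h6 with h7 | h7
    · exact h4 h7
    · exact hy h7
  have hz1 : z ≠ 1 := by
    rintro rfl
    apply hu1
    rw [← hzu]
    have : inO (1 : K) hzv.le = (1 : O) := rfl
    rw [this, map_one]
  have hprim : IsPrimitiveRoot z p := by
    have : Fact p.Prime := ⟨hp⟩
    rw [IsPrimitiveRoot.iff_orderOf]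
    exact orderOf_eq_prime hz hz1
  refine ⟨z, hprim, fun c hc => ?_⟩
  -- the class of `x c`
  have hne : NeZero p := ⟨hp.ne_zero⟩
  have hcv : c.val < p := ZMod.val_lt c
  have hcv0 : c.val ≠ 0 := by
    intro h0
    exact hc ((ZMod.val_eq_zero c).mp h0)
  have hcc : ((c.val : ℕ) : ZMod p) = c := ZMod.natCast_zmod_val c
  have hy : 2 + 4 / yy O x h1 c = u ^ c.val + u⁻¹ ^ c.val := by
    rcases Nat.lt_or_ge (c.val + 1) p with hlt | hge
    · have := (N.pow h5 hu0 hy1 c.val (by omega) hlt).1
      rwa [hcc] at this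
    · have := (N.pow h5 hu0 hy1 (c.val - 1) (by omega) (by omega)).2
      have e : c.val - 1 + 1 = c.val := by omega
      rwa [e, hcc] at this
  have hyne := N.ne0 c hc
  have huc : yy O x h1 c * (u ^ c.val - 1) ^ 2 = 4 * u ^ c.val := by
    have h7 : u ^ c.val * u⁻¹ ^ c.val = 1 := by
      rw [← mul_pow, mul_inv_cancel₀ hu0, one_pow]
    have h8 : yy O x h1 c * (u ^ c.val + u⁻¹ ^ c.val - 2) = 4 := by
      rw [← hy]
      field_simp
      ring
    linear_combination u ^ c.val * h8 - yy O x h1 c * h7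
  have hden : O.valuation (z ^ c.val - 1) = 1 := by
    have hle : O.valuation (z ^ c.val - 1) ≤ 1 := by
      refine (Valuation.map_sub _ _ _).trans (max_le ?_ (by rw [map_one]))
      rw [map_pow, hzv, one_pow]
    apply le_antisymm hle
    by_contra hc'
    rw [not_le] at hc'
    have e : residue O (inO z hzv.le ^ c.val) = residue O 1 := by
      rw [res_eq_iff]
      exact hc'
    rw [map_pow, hzu, map_one] at e
    rw [e, sub_self, zero_pow (by norm_num), mul_zero, mul_one] at huc
    exact h4 huc.symm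
  have hden0 : z ^ c.val - 1 ≠ 0 := by
    intro h0
    rw [h0, map_zero] at hden
    exact zero_ne_one hden
  have hnum : O.valuation (x c * (z ^ c.val - 1) ^ 2 - 4 * z ^ c.val) < 1 := by
    have e : residue O (inO (x c) (h1 c hc).le * (inO z hzv.le ^ c.val - 1) ^ 2) =
        residue O (4 * inO z hzv.le ^ c.val) := by
      simp only [map_mul, map_sub, map_pow, map_one, map_ofNat, hzu, ← yy_of h1 hc]
      exact huc
    rw [res_eq_iff] at e
    exact e
  have e : x c - 4 * z ^ c.val / (z ^ c.val - 1) ^ 2 =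
      (x c * (z ^ c.val - 1) ^ 2 - 4 * z ^ c.val) / (z ^ c.val - 1) ^ 2 := by
    field_simp
  rw [e, map_div₀, map_pow, hden, one_pow, div_one]
  exact hnum

end Pool.Agent.TJG
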