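import Pool.Agent.Lib_helper99.TJG.B

/-!
# The change of variable, and the transcendence of its parameter
-/

set_option autoImplicit false
set_option linter.unusedSectionVars false

namespace Pool.Agent.TJG

open WeierstrassCurve.Affine

variable {k : Type*} [Field k] [CharZero k] {W : WeierstrassCurve.Affine k}
  {K : Type*} [Field K] [Algebra k K]

lemma c4_eq {r A B : K} (D : Dat W r A B) : algebraMap k K W.c₄ = 16 * A ^ 2 := by
  have h1 := D.h1
  have h2 := D.h2
  rw [WeierstrassCurve.c₄]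
  simp only [map_sub, map_pow, map_mul, map_ofNat]
  generalize algebraMap k K W.b₂ = b2 at *
  generalize algebraMap k K W.b₄ = b4 at *
  have e4 : b2 = 4 * A - 12 * r := by linear_combination -h1
  subst e4
  linear_combination -24 * h2

lemma delta_eq {r A B : K} [CharZero K] (D : Dat W r A B) :
    algebraMap k K W.Δ = -16 * A ^ 6 * (B * (4 + 27 * B)) := by
  have h1 := D.h1
  have h2 := D.h2
  have h3 := D.h3
  have hb := congrArg (algebraMap k K) W.b_relation
  rw [WeierstrassCurve.Δ]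
  simp only [map_add, map_sub, map_pow, map_mul, map_ofNat, map_neg] at hb ⊢
  generalize algebraMap k K W.b₂ = b2 at *
  generalize algebraMap k K W.b₄ = b4 at *
  generalize algebraMap k K W.b₆ = b6 at *
  generalize algebraMap k K W.b₈ = b8 at *
  have e2 : b2 = 4 * A - 12 * r := by linear_combination -h1
  have e4 : b4 = -(6 * r ^ 2 + b2 * r) := by linear_combination h2
  have e6 : b6 = 4 * A ^ 3 * B - 4 * r ^ 3 - b2 * r ^ 2 - 2 * b4 * r := by
    linear_combination h3
  have h4 : (4 : K) ≠ 0 := by norm_num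
  apply mul_left_cancel₀ h4
  have e8 : 4 * (-b2 ^ 2 * b8 - 8 * b4 ^ 3 - 27 * b6 ^ 2 + 9 * b2 * b4 * b6) =
      -b2 ^ 2 * (b2 * b6 - b4 ^ 2) - 32 * b4 ^ 3 - 108 * b6 ^ 2 + 36 * b2 * b4 * b6 := by
    linear_combination -b2 ^ 2 * hb
  rw [e8, e6, e4, e2]
  ring

variable (W K) in
lemma exists_dat [IsAlgClosed K] [CharZero K] (hc : W.c₄ ≠ 0) :
    ∃ r A B : K, Dat W r A B := by
  obtain ⟨s, hs⟩ := IsAlgClosed.exists_pow_nat_eq (algebraMap k K W.c₄) (n := 2) (by norm_num)
  have hc' : algebraMap k K W.c₄ ≠ 0 := (map_ne_zero _).mpr hc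
  have hs0 : s ≠ 0 := by
    rintro rfl
    apply hc'
    rw [← hs]
    ring
  have e : algebraMap k K W.c₄ = (algebraMap k K W.b₂) ^ 2 - 24 * algebraMap k K W.b₄ := by
    rw [WeierstrassCurve.c₄]
    simp only [map_sub, map_pow, map_mul, map_ofNat]
  rw [e] at hs
  have hA : s / 4 ≠ 0 := div_ne_zero hs0 (by norm_num)
  refine ⟨(s - algebraMap k K W.b₂) / 12, s / 4,
    (4 * ((s - algebraMap k K W.b₂) / 12) ^ 3 + algebraMap k K W.b₂ *
      ((s - algebraMap k K W.b₂) / 12) ^ 2 + 2 * algebraMap k K W.b₄ *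
        ((s - algebraMap k K W.b₂) / 12) + algebraMap k K W.b₆) / (4 * (s / 4) ^ 3),
    hA, ?_, ?_, ?_⟩
  · ring
  · linear_combination hs / 24
  · rw [mul_div_cancel₀]
    exact mul_ne_zero (by norm_num) (pow_ne_zero 3 hA)

lemma j_eq {r A B : K} [CharZero K] (D : Dat W r A B) :
    algebraMap k K (W.c₄ ^ 3 / W.Δ) = -256 * (B * (4 + 27 * B))⁻¹ := by
  rw [map_div₀, map_pow, c4_eq D, delta_eq D]
  have hA := D.ne
  rcases eq_or_ne (B * (4 + 27 * B)) 0 with h0 | h0
  · rw [h0]; simp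
  · generalize B * (4 + 27 * B) = u at *
    field_simp
    ring

lemma alg_of {F : Type*} [Field F] [CharZero F] (B : F) (h : IsAlgebraic ℚ B) :
    IsAlgebraic ℚ (-256 * (B * (4 + 27 * B))⁻¹) := by
  have hn : ∀ q : ℚ, IsAlgebraic ℚ ((q : ℚ) : F) := fun q => by
    have := isAlgebraic_algebraMap (R := ℚ) (A := F) q
    rwa [eq_ratCast] at this
  have h1 : IsAlgebraic ℚ (-256 : F) := by simpa using hn (-256)
  have h2 : IsAlgebraic ℚ (4 : F) := by simpa using hn 4
  have h3 : IsAlgebraic ℚ (27 : F) := by simpa using hn 27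
  exact h1.mul (h.mul (h2.add (h3.mul h))).inv

theorem trans_of {r A B : K} [CharZero K] (D : Dat W r A B)
    (hj : Transcendental ℚ (W.c₄ ^ 3 / W.Δ)) : Transcendental ℚ B := by
  intro h
  apply hj
  have h1 := alg_of B h
  rw [← j_eq D] at h1
  exact (isAlgebraic_algebraMap_iff (algebraMap k K).injective).mp h1

end Pool.Agent.TJG
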