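import Pool.Agent.Lib_helper99.TJG.C
import Pool.Agent.Lib_helper24.FAM.DefsT

/-!
# From a group of points of prime order to the abscissae
-/

set_option autoImplicit false
set_option linter.unusedSectionVars false

namespace Pool.Agent.TJG

open WeierstrassCurve.Affine
open Pool.Agent.TJ (ff Tor gax)

variable {k : Type*} [Field k] [DecidableEq k] [CharZero k] {W : WeierstrassCurve.Affine k}
  {K : Type*} [Field K] [CharZero K] [Algebra k K]

lemma absc_eq (P : W.Point) : FK4.absc P = xx P := by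
  rcases P with _ | ⟨x, y, h⟩ <;> rfl

lemma gam_eq (H : AddSubgroup W.Point) [Fintype H] (P : W.Point) (hP : P ≠ 0) (h0 : eta P ≠ 0) :
    FK4.gam H P = eta P ^ 2 *
      ∏ c : H, if (c : W.Point) = 0 ∨ (c : W.Point) = P ∨ (c : W.Point) = -P then 1
        else xx P - xx (c : W.Point) := by
  rcases P with _ | ⟨x, y, h⟩
  · exact absurd rfl hP
  have h0' : 2 * y + W.a₁ * x + W.a₃ ≠ 0 := h0
  unfold FK4.gam
  dsimp only
  rw [if_neg h0']
  simp only [absc_eq]
  rfl

section

variable {p : ℕ} [NeZero p] {H : AddSubgroup W.Point} (e : ZMod p ≃+ H)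

/-- the abscissae of the multiples -/
noncomputable def xc (r A : K) (c : ZMod p) : K := nx r A ((e c : H) : W.Point)

lemma e_ne {c : ZMod p} (hc : c ≠ 0) : ((e c : H) : W.Point) ≠ 0 := by
  intro h
  apply hc
  have : e c = 0 := Subtype.ext h
  rwa [map_eq_zero_iff e e.injective] at this

lemma e_neg (c : ZMod p) : ((e (-c) : H) : W.Point) = -((e c : H) : W.Point) := by
  rw [map_neg]; rfl

lemma e_inj {b c : ZMod p} (h : ((e b : H) : W.Point) = ((e c : H) : W.Point)) : b = c :=
  e.injective (Subtype.ext h)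

lemma neg_ne_self (hp : p.Prime) (h5 : 5 ≤ p) {c : ZMod p} (hc : c ≠ 0) : c ≠ -c := by
  intro h
  have : Fact p.Prime := ⟨hp⟩
  have h2 : (2 : ZMod p) * c = 0 := by linear_combination h
  rcases mul_eq_zero.mp h2 with h3 | h3
  · have h4 : ((2 : ℕ) : ZMod p) = 0 := by exact_mod_cast h3
    rw [ZMod.natCast_eq_zero_iff] at h4
    have := Nat.le_of_dvd (by norm_num) h4
    omega
  · exact hc h3

lemma e_ne_neg (hp : p.Prime) (h5 : 5 ≤ p) {c : ZMod p} (hc : c ≠ 0) :
    ((e c : H) : W.Point) ≠ -((e c : H) : W.Point) := by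
  intro h
  rw [← e_neg] at h
  exact neg_ne_self hp h5 hc (e_inj e h)

lemma e_xx {b c : ZMod p} (hb : b ≠ 0) (hc : c ≠ 0) (h1 : b ≠ c) (h2 : b ≠ -c) :
    xx ((e b : H) : W.Point) ≠ xx ((e c : H) : W.Point) := by
  intro h
  rcases eq_or_of_xx _ _ (e_ne e hb) (e_ne e hc) h with h3 | h3
  · exact h1 (e_inj e h3)
  · rw [← e_neg] at h3
    exact h2 (e_inj e h3)

theorem tor_of {r A B : K} (D : Dat W r A B) (hp : p.Prime) (h5 : 5 ≤ p) :
    Tor p 1 B (xc e r A) where
  even c := by unfold xc; rw [e_neg, nx_neg]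
  ne0 c hc := by
    intro h
    have h1 := nx_eta D _ (e_ne e hc)
    unfold xc at h
    rw [h, mul_zero] at h1
    have h2 := eta_ne _ (e_ne e hc) (e_ne_neg e hp h5 hc)
    exact h2 ((map_eq_zero (algebraMap k K)).mp (pow_eq_zero_iff (by norm_num) |>.mp h1))
  dbl c hc := by
    unfold xc
    have h1 : ((e (2 * c) : H) : W.Point) = ((e c : H) : W.Point) + ((e c : H) : W.Point) := by
      rw [two_mul, map_add]; rfl
    rw [h1]
    exact nx_dbl D _ (e_ne e hc) (e_ne_neg e hp h5 hc)
  ne b c hb hc h1 h2 := by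
    intro h
    exact e_xx e hb hc h1 h2 (nx_inj D h)
  sum b c hb hc h1 h2 := by
    unfold xc
    have h3 : ((e (b + c) : H) : W.Point) = ((e b : H) : W.Point) + ((e c : H) : W.Point) := by
      rw [map_add]; rfl
    have h4 : ((e (b - c) : H) : W.Point) = ((e b : H) : W.Point) - ((e c : H) : W.Point) := by
      rw [map_sub]; rfl
    rw [h3, h4]
    exact nx_sum D _ _ (e_ne e hb) (e_ne e hc) (e_xx e hb hc h1 h2)
  prod b c hb hc h1 h2 := by
    unfold xc
    have h3 : ((e (b + c) : H) : W.Point) = ((e b : H) : W.Point) + ((e c : H) : W.Point) := by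
      rw [map_add]; rfl
    have h4 : ((e (b - c) : H) : W.Point) = ((e b : H) : W.Point) - ((e c : H) : W.Point) := by
      rw [map_sub]; rfl
    rw [h3, h4]
    exact nx_prod D _ _ (e_ne e hb) (e_ne e hc) (e_xx e hb hc h1 h2)

lemma card_three (hp : p.Prime) (h5 : 5 ≤ p) {c : ZMod p} (hc : c ≠ 0) (A : K) :
    (∏ b : ZMod p, if b = 0 ∨ b = c ∨ b = -c then (1 : K) else A) * A ^ 3 = A ^ p := by
  classical
  have hcn := neg_ne_self hp h5 hc
  have hn0 : (-c) ≠ 0 := neg_ne_zero.mpr hc
  rw [Finset.prod_ite, Finset.prod_const_one, one_mul, Finset.prod_const, ← pow_add]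
  congr 1
  have h1 : (Finset.univ.filter fun b : ZMod p => b = 0 ∨ b = c ∨ b = -c) = {0, c, -c} := by
    ext b; simp
  have h2 : ({0, c, -c} : Finset (ZMod p)).card = 3 := by
    rw [Finset.card_insert_of_notMem, Finset.card_insert_of_notMem, Finset.card_singleton]
    · simpa using hcn
    · simp only [Finset.mem_insert, Finset.mem_singleton, not_or]
      exact ⟨fun h => hc h.symm, fun h => hn0 h.symm⟩
  have h3 := Finset.card_filter_add_card_filter_not (s := (Finset.univ : Finset (ZMod p)))
    (fun b => b = 0 ∨ b = c ∨ b = -c)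
  rw [h1, h2, Finset.card_univ, ZMod.card] at h3
  omega

theorem gam_of [Fintype H] {r A B : K} (D : Dat W r A B) (hp : p.Prime) (h5 : 5 ≤ p)
    (c : ZMod p) (hc : c ≠ 0) :
    algebraMap k K (FK4.gam H ((e c : H) : W.Point)) = A ^ p * gax 1 B (xc e r A) c := by
  have h0 := eta_ne _ (e_ne e hc) (e_ne_neg e hp h5 hc)
  rw [gam_eq H _ (e_ne e hc) h0, map_mul, map_pow, nx_eta D _ (e_ne e hc), map_prod,
    ← card_three hp h5 hc A]
  have h1 : (∏ b : H, algebraMap k K (if (b : W.Point) = 0 ∨ (b : W.Point) = ((e c : H) : W.Point) ∨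
      (b : W.Point) = -((e c : H) : W.Point) then 1
        else xx ((e c : H) : W.Point) - xx (b : W.Point))) =
      ∏ b : ZMod p, ((if b = 0 ∨ b = c ∨ b = -c then (1 : K) else A) *
        if b = 0 ∨ b = c ∨ b = -c then (1 : K) else xc e r A c - xc e r A b) := by
    rw [← Equiv.prod_comp e.toEquiv]
    refine Finset.prod_congr rfl fun b _ => ?_
    have h2 : (((e.toEquiv b : H) : W.Point) = 0 ∨
        ((e.toEquiv b : H) : W.Point) = ((e c : H) : W.Point) ∨
          ((e.toEquiv b : H) : W.Point) = -((e c : H) : W.Point)) ↔ (b = 0 ∨ b = c ∨ b = -c) := by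
      show ((((e b : H) : W.Point) = 0) ∨ _ ∨ _) ↔ _
      constructor
      · rintro (h | h | h)
        · left
          by_contra hb
          exact e_ne e hb h
        · right; left
          exact e_inj e h
        · right; right
          rw [← e_neg] at h
          exact e_inj e h
      · rintro (rfl | rfl | rfl)
        · left
          rw [map_zero]; rfl
        · right; left; rfl
        · right; right
          exact e_neg e c
    by_cases hb : b = 0 ∨ b = c ∨ b = -c
    · rw [if_pos (h2.mpr hb), if_pos hb, if_pos hb, map_one, one_mul]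
    · rw [if_neg (fun h => hb (h2.mp h)), if_neg hb, if_neg hb, map_sub]
      show algebraMap k K (xx ((e c : H) : W.Point)) - algebraMap k K (xx ((e b : H) : W.Point)) = _
      rw [nx_eq D, nx_eq D ((e b : H) : W.Point)]
      unfold xc
      ring
  rw [h1, Finset.prod_mul_distrib]
  unfold gax
  unfold xc
  ring

end

/-- The multiples of a point of prime order, up to a change of variable over the algebraic closure:
the numbers `γ` are those of `y² = x³ + x² + B`, up to a factor; `B` is transcendental if `j` is. -/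
theorem exists_tor (W : WeierstrassCurve.Affine k) (H : AddSubgroup W.Point) [Fintype H]
    {p : ℕ} [NeZero p] (hc : Fintype.card H = p) (hp : p.Prime) (h5 : 5 ≤ p)
    (hj : Transcendental ℚ (W.c₄ ^ 3 / W.Δ)) :
    ∃ (B : AlgebraicClosure k) (x : ZMod p → AlgebraicClosure k) (e : ZMod p ≃+ H)
      (s : AlgebraicClosure k), s ≠ 0 ∧ Transcendental ℚ B ∧ Tor p 1 B x ∧
        ∀ c, c ≠ 0 → algebraMap k (AlgebraicClosure k) (FK4.gam H ((e c : H) : W.Point)) =
          s * gax 1 B x c := by
  have h4 : W.c₄ ≠ 0 := by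
    intro h
    apply hj
    rw [h, zero_pow (by norm_num), zero_div]
    exact isAlgebraic_zero
  obtain ⟨r, A, B, D⟩ := exists_dat W (AlgebraicClosure k) h4
  have hcard : Nat.card H = p := by rw [Nat.card_eq_fintype_card, hc]
  have : Fact p.Prime := ⟨hp⟩
  have hcyc : IsAddCyclic H := isAddCyclic_of_prime_card hcard
  subst hcard
  exact ⟨B, xc (zmodAddCyclicAddEquiv hcyc) r A, zmodAddCyclicAddEquiv hcyc, A ^ Nat.card H,
    pow_ne_zero _ D.ne, trans_of D hj, tor_of _ D hp h5, fun c hc' => gam_of _ D hp h5 c hc'⟩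

end Pool.Agent.TJG
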