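import Mathlib

/-!
# The abscissae of a sum of two points of a Weierstrass curve
-/

set_option autoImplicit false
set_option linter.unusedSectionVars false

namespace Pool.Agent.TJG

open WeierstrassCurve.Affine

variable {k : Type*} [Field k] [DecidableEq k] {W : WeierstrassCurve.Affine k}

/-- the abscissa of a point -/
def xx : W.Point → k
  | 0 => 0
  | .some x _ _ => x

/-- the number `2y + a₁x + a₃` of a point -/
def eta : W.Point → k
  | 0 => 0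
  | .some x y _ => 2 * y + W.a₁ * x + W.a₃

lemma xx_neg (P : W.Point) : xx (-P) = xx P := by
  rcases P with _ | ⟨x, y, h⟩
  · rfl
  · rfl

lemma eta_neg (P : W.Point) : eta (-P) = -eta P := by
  rcases P with _ | ⟨x, y, h⟩
  · show (0 : k) = -0
    ring
  · show 2 * W.negY x y + W.a₁ * x + W.a₃ = -(2 * y + W.a₁ * x + W.a₃)
    rw [negY]
    ring

lemma eta_sq (P : W.Point) (hP : P ≠ 0) :
    eta P ^ 2 = 4 * xx P ^ 3 + W.b₂ * xx P ^ 2 + 2 * W.b₄ * xx P + W.b₆ := by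
  rcases P with _ | ⟨x, y, h⟩
  · exact absurd rfl hP
  · show (2 * y + W.a₁ * x + W.a₃) ^ 2 = 4 * x ^ 3 + W.b₂ * x ^ 2 + 2 * W.b₄ * x + W.b₆
    have e := (equation_iff ..).mp h.left
    rw [WeierstrassCurve.b₂, WeierstrassCurve.b₄, WeierstrassCurve.b₆]
    linear_combination 4 * e

lemma eq_or_of_xx (P Q : W.Point) (hP : P ≠ 0) (hQ : Q ≠ 0) (h : xx P = xx Q) :
    P = Q ∨ P = -Q := by
  rcases P with _ | ⟨x, y, h1⟩
  · exact absurd rfl hP
  rcases Q with _ | ⟨x', y', h2⟩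
  · exact absurd rfl hQ
  exact Point.X_eq_iff.mp h

lemma eta_ne (P : W.Point) (hP : P ≠ 0) (h2 : P ≠ -P) : eta P ≠ 0 := by
  rcases P with _ | ⟨x, y, h⟩
  · exact absurd rfl hP
  intro h0
  apply h2
  show Point.some x y h = -Point.some x y h
  rw [Point.neg_some]
  have e : y = W.negY x y := by
    rw [negY]
    have : 2 * y + W.a₁ * x + W.a₃ = 0 := h0
    linear_combination this
  congr

lemma xx_add (P Q : W.Point) (hP : P ≠ 0) (hQ : Q ≠ 0) (h : xx P ≠ xx Q) :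
    4 * xx (P + Q) * (xx P - xx Q) ^ 2 =
      (eta P - eta Q) ^ 2 - (W.b₂ + 4 * (xx P + xx Q)) * (xx P - xx Q) ^ 2 := by
  rcases P with _ | ⟨x, y, h1⟩
  · exact absurd rfl hP
  rcases Q with _ | ⟨x', y', h2⟩
  · exact absurd rfl hQ
  have hx : x ≠ x' := h
  have hd : x - x' ≠ 0 := sub_ne_zero.mpr hx
  rw [Point.add_of_X_ne hx]
  show 4 * W.addX x x' (W.slope x x' y y') * (x - x') ^ 2 =
    ((2 * y + W.a₁ * x + W.a₃) - (2 * y' + W.a₁ * x' + W.a₃)) ^ 2 -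
      (W.b₂ + 4 * (x + x')) * (x - x') ^ 2
  rw [slope_of_X_ne hx, addX, WeierstrassCurve.b₂]
  field_simp
  ring

lemma xx_dbl (P : W.Point) (hP : P ≠ 0) (h2 : P ≠ -P) :
    4 * xx (P + P) * eta P ^ 2 =
      (6 * xx P ^ 2 + W.b₂ * xx P + W.b₄) ^ 2 - (W.b₂ + 8 * xx P) * eta P ^ 2 := by
  have h0 := eta_ne P hP h2
  rcases P with _ | ⟨x, y, h⟩
  · exact absurd rfl hP
  have h0' : 2 * y + W.a₁ * x + W.a₃ ≠ 0 := h0
  have hy : y ≠ W.negY x y := by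
    intro e
    apply h0'
    rw [negY] at e
    linear_combination e
  rw [Point.add_self_of_Y_ne hy]
  show 4 * W.addX x x (W.slope x x y y) * (2 * y + W.a₁ * x + W.a₃) ^ 2 =
    (6 * x ^ 2 + W.b₂ * x + W.b₄) ^ 2 - (W.b₂ + 8 * x) * (2 * y + W.a₁ * x + W.a₃) ^ 2
  rw [slope_of_Y_ne rfl hy, addX, WeierstrassCurve.b₂, WeierstrassCurve.b₄]
  have e1 : y - W.negY x y = 2 * y + W.a₁ * x + W.a₃ := by rw [negY]; ring
  rw [e1]
  obtain ⟨l, hl⟩ : ∃ l : k, l = (3 * x ^ 2 + 2 * W.a₂ * x + W.a₄ - W.a₁ * y) /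
    (2 * y + W.a₁ * x + W.a₃) := ⟨_, rfl⟩
  rw [← hl]
  have hl2 : l * (2 * y + W.a₁ * x + W.a₃) =
      3 * x ^ 2 + 2 * W.a₂ * x + W.a₄ - W.a₁ * y := by
    rw [hl, div_mul_cancel₀ _ h0']
  linear_combination (4 * (l * (2 * y + W.a₁ * x + W.a₃) +
    (3 * x ^ 2 + 2 * W.a₂ * x + W.a₄ - W.a₁ * y)) +
      4 * W.a₁ * (2 * y + W.a₁ * x + W.a₃)) * hl2

end Pool.Agent.TJG
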