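import Pool.Agent.Lib_helper99.TJG.A
import Pool.Agent.Lib_helper24.TJ.Tor

/-!
# The normalised abscissae
-/

set_option autoImplicit false
set_option linter.unusedSectionVars false

namespace Pool.Agent.TJG

open WeierstrassCurve.Affine
open Pool.Agent.TJ (ff Tor gax)

variable {k : Type*} [Field k] [DecidableEq k] [CharZero k] {W : WeierstrassCurve.Affine k}
  {K : Type*} [Field K] [Algebra k K]

/-- the data of the change of variable -/
structure Dat (W : WeierstrassCurve.Affine k) (r A B : K) : Prop where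
  ne : A ≠ 0
  h1 : 4 * A = algebraMap k K W.b₂ + 12 * r
  h2 : 6 * r ^ 2 + algebraMap k K W.b₂ * r + algebraMap k K W.b₄ = 0
  h3 : 4 * r ^ 3 + algebraMap k K W.b₂ * r ^ 2 + 2 * algebraMap k K W.b₄ * r +
    algebraMap k K W.b₆ = 4 * A ^ 3 * B

/-- the normalised abscissa -/
noncomputable def nx (r A : K) (P : W.Point) : K := (algebraMap k K (xx P) - r) / A

lemma nx_eq {r A B : K} (D : Dat W r A B) (P : W.Point) :
    algebraMap k K (xx P) = A * nx r A P + r := by
  unfold nx
  field_simp [D.ne]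
  ring

lemma nx_neg (r A : K) (P : W.Point) : nx r A (-P) = nx r A P := by
  unfold nx; rw [xx_neg]

lemma nx_inj {r A B : K} (D : Dat W r A B) {P Q : W.Point} (h : nx r A P = nx r A Q) :
    xx P = xx Q := by
  have h1 := nx_eq D P
  rw [h, ← nx_eq D Q] at h1
  exact (algebraMap k K).injective h1

lemma nx_eta {r A B : K} (D : Dat W r A B) (P : W.Point) (hP : P ≠ 0) :
    algebraMap k K (eta P) ^ 2 = 4 * A ^ 3 * ff 1 B (nx r A P) := by
  have e := congrArg (algebraMap k K) (eta_sq P hP)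
  simp only [map_pow, map_add, map_mul, map_ofNat, nx_eq D P] at e
  rw [e]
  unfold ff
  have h1 := D.h1
  have h2 := D.h2
  have h3 := D.h3
  generalize nx r A P = t at *
  generalize algebraMap k K W.b₂ = b2 at *
  generalize algebraMap k K W.b₄ = b4 at *
  generalize algebraMap k K W.b₆ = b6 at *
  linear_combination h3 + 2 * A * t * h2 - A ^ 2 * t ^ 2 * h1

lemma nx_add {r A B : K} (D : Dat W r A B) (P Q : W.Point) (hP : P ≠ 0) (hQ : Q ≠ 0)
    (h : xx P ≠ xx Q) :
    4 * A ^ 3 * nx r A (P + Q) * (nx r A P - nx r A Q) ^ 2 =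
      (algebraMap k K (eta P) - algebraMap k K (eta Q)) ^ 2 -
        4 * A ^ 3 * (1 + nx r A P + nx r A Q) * (nx r A P - nx r A Q) ^ 2 := by
  have e := congrArg (algebraMap k K) (xx_add P Q hP hQ h)
  simp only [map_pow, map_add, map_sub, map_mul, map_ofNat, nx_eq D P, nx_eq D Q,
    nx_eq D (P + Q)] at e
  have h1 := D.h1
  generalize nx r A P = t at *
  generalize nx r A Q = u at *
  generalize nx r A (P + Q) = w at *
  generalize algebraMap k K W.b₂ = b2 at *
  linear_combination e + A ^ 2 * (t - u) ^ 2 * h1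

lemma nx_dbl {r A B : K} [CharZero K] (D : Dat W r A B) (P : W.Point) (hP : P ≠ 0) (h2 : P ≠ -P) :
    nx r A (P + P) * (4 * ff 1 B (nx r A P)) = nx r A P ^ 4 - 8 * B * nx r A P - 4 * 1 * B := by
  have e := congrArg (algebraMap k K) (xx_dbl P hP h2)
  have e2 := nx_eta D P hP
  simp only [map_pow, map_add, map_sub, map_mul, map_ofNat, nx_eq D P, nx_eq D (P + P)] at e
  rw [e2] at e
  unfold ff at *
  have h1 := D.h1
  have h2 := D.h2
  generalize nx r A P = t at *
  generalize nx r A (P + P) = w at *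
  generalize algebraMap k K W.b₂ = b2 at *
  generalize algebraMap k K W.b₄ = b4 at *
  have hA : (4 * A ^ 4 : K) ≠ 0 := mul_ne_zero (by norm_num) (pow_ne_zero 4 D.ne)
  have e3 : b4 = -(6 * r ^ 2 + b2 * r) := by linear_combination h2
  have e4 : b2 = 4 * A - 12 * r := by linear_combination -h1
  subst e3
  subst e4
  apply mul_left_cancel₀ hA
  linear_combination e

lemma nx_sum {r A B : K} [CharZero K] (D : Dat W r A B) (P Q : W.Point) (hP : P ≠ 0) (hQ : Q ≠ 0)
    (h : xx P ≠ xx Q) :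
    (nx r A (P + Q) + nx r A (P - Q)) * (nx r A P - nx r A Q) ^ 2 =
      2 * nx r A P * nx r A Q * (nx r A P + nx r A Q + 2 * 1) + 4 * B := by
  have e1 := nx_add D P Q hP hQ h
  have e2 := nx_add D P (-Q) hP (neg_ne_zero.mpr hQ) (by rw [xx_neg]; exact h)
  rw [← sub_eq_add_neg, nx_neg, eta_neg, map_neg] at e2
  have e3 := nx_eta D P hP
  have e4 := nx_eta D Q hQ
  unfold ff at *
  generalize nx r A P = t at *
  generalize nx r A Q = u at *
  generalize nx r A (P + Q) = w at *
  generalize nx r A (P - Q) = z at *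
  generalize algebraMap k K (eta P) = a at *
  generalize algebraMap k K (eta Q) = b at *
  have hA : (4 * A ^ 3 : K) ≠ 0 := mul_ne_zero (by norm_num) (pow_ne_zero 3 D.ne)
  apply mul_left_cancel₀ hA
  linear_combination e1 + e2 + 2 * e3 + 2 * e4

lemma nx_prod {r A B : K} [CharZero K] (D : Dat W r A B) (P Q : W.Point) (hP : P ≠ 0) (hQ : Q ≠ 0)
    (h : xx P ≠ xx Q) :
    nx r A (P + Q) * nx r A (P - Q) * (nx r A P - nx r A Q) ^ 2 =
      (nx r A P * nx r A Q) ^ 2 - 4 * B * (nx r A P + nx r A Q) - 4 * 1 * B := by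
  have hne : nx r A P ≠ nx r A Q := fun hh => h (nx_inj D hh)
  have e1 := nx_add D P Q hP hQ h
  have e2 := nx_add D P (-Q) hP (neg_ne_zero.mpr hQ) (by rw [xx_neg]; exact h)
  rw [← sub_eq_add_neg, nx_neg, eta_neg, map_neg] at e2
  have e3 := nx_eta D P hP
  have e4 := nx_eta D Q hQ
  unfold ff at *
  generalize nx r A P = t at *
  generalize nx r A Q = u at *
  generalize nx r A (P + Q) = w at *
  generalize nx r A (P - Q) = z at *
  generalize algebraMap k K (eta P) = a at *
  generalize algebraMap k K (eta Q) = b at *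
  have hA : ((4 * A ^ 3) ^ 2 * (t - u) ^ 2 : K) ≠ 0 :=
    mul_ne_zero (pow_ne_zero 2 (mul_ne_zero (by norm_num) (pow_ne_zero 3 D.ne)))
      (pow_ne_zero 2 (sub_ne_zero.mpr hne))
  apply mul_left_cancel₀ hA
  have e5 : (4 * A ^ 3 * w * (t - u) ^ 2) * (4 * A ^ 3 * z * (t - u) ^ 2) =
      (a ^ 2 - b ^ 2) ^ 2 - 2 * (a ^ 2 + b ^ 2) * (4 * A ^ 3 * (1 + t + u) * (t - u) ^ 2) +
        (4 * A ^ 3 * (1 + t + u) * (t - u) ^ 2) ^ 2 := by
    rw [e1, e2]; ring
  rw [e3, e4] at e5
  linear_combination e5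

end Pool.Agent.TJG
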