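import Pool.Agent.Lib_helper24.TJ.Tor

/-!
# Bad reduction: all the abscissae in the maximal ideal, or none
-/

set_option autoImplicit false
set_option linter.unusedSectionVars false

namespace Pool.Agent.TJG

open Pool.Agent.TJ (ff Tor gax)

variable {K : Type*} [Field K] {G : Type*} [LinearOrderedCommGroupWithZero G]
  {v : Valuation K G} {p : ℕ} {B : K} {x : ZMod p → K}

lemma v_two (h2 : ∀ n : ℤ, n ≠ 0 → v (n : K) = 1) : v (2 : K) = 1 := by
  have := h2 2 (by norm_num); simpa using this

lemma v_four (h2 : ∀ n : ℤ, n ≠ 0 → v (n : K) = 1) : v (4 : K) = 1 := by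
  have := h2 4 (by norm_num); simpa using this

lemma v_eight (h2 : ∀ n : ℤ, n ≠ 0 → v (n : K) = 1) : v (8 : K) = 1 := by
  have := h2 8 (by norm_num); simpa using this

/-- a unit and an element of the maximal ideal -/
lemma step_sum (h2 : ∀ n : ℤ, n ≠ 0 → v (n : K) = 1) (hB : v B < 1) (t : Tor p 1 B x)
    (hx : ∀ c, c ≠ 0 → v (x c) ≤ 1) {b c : ZMod p} (hb : b ≠ 0) (hc : c ≠ 0)
    (hvb : v (x b) = 1) (hvc : v (x c) < 1) : b + c ≠ 0 ∧ v (x (b + c)) < 1 := by
  have h1 : b ≠ c := by rintro rfl; exact (ne_of_lt hvc) hvb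
  have h3 : b ≠ -c := by
    rintro rfl
    rw [t.even] at hvb
    exact (ne_of_lt hvc) hvb
  have hbc : b + c ≠ 0 := by
    intro h; exact h3 (eq_neg_of_add_eq_zero_left h)
  have hbc' : b - c ≠ 0 := sub_ne_zero.mpr h1
  refine ⟨hbc, ?_⟩
  have hd : v (x b - x c) = 1 := by
    rw [Valuation.map_sub_eq_of_lt_left, hvb]
    rwa [hvb]
  have hs := t.sum b c hb hc h1 h3
  have hp := t.prod b c hb hc h1 h3
  have e4 := v_four h2
  have e2 := v_two h2
  -- the sum and the product are in the maximal ideal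
  have hs' : v (x (b + c) + x (b - c)) < 1 := by
    have := congrArg v hs
    rw [map_mul, map_pow, hd, one_pow, mul_one] at this
    rw [this]
    refine (Valuation.map_add _ _ _).trans_lt (max_lt ?_ ?_)
    · rw [map_mul, map_mul, map_mul, e2, one_mul, hvb, one_mul]
      have h6 : v (x b + x c + 2 * 1) ≤ 1 := by
        refine (Valuation.map_add _ _ _).trans (max_le
          ((Valuation.map_add _ _ _).trans (max_le hvb.le hvc.le)) ?_)
        rw [mul_one, e2]
      exact lt_of_le_of_lt (mul_le_of_le_one_right' h6) hvc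
    · rw [map_mul, e4, one_mul]; exact hB
  have hp' : v (x (b + c) * x (b - c)) < 1 := by
    have := congrArg v hp
    rw [map_mul v (x (b + c) * x (b - c)), map_pow, hd, one_pow, mul_one] at this
    rw [this]
    refine (Valuation.map_sub _ _ _).trans_lt (max_lt
      ((Valuation.map_sub _ _ _).trans_lt (max_lt ?_ ?_)) ?_)
    · rw [map_pow, map_mul, hvb, one_mul]
      exact pow_lt_one₀ zero_le hvc (by norm_num)
    · rw [map_mul, map_mul, e4, one_mul]
      have h6 : v (x b + x c) ≤ 1 := (Valuation.map_add _ _ _).trans (max_le hvb.le hvc.le)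
      exact lt_of_le_of_lt (mul_le_of_le_one_right' h6) hB
    · rw [mul_one, map_mul, e4, one_mul]; exact hB
  by_contra hn
  have h7 : v (x (b + c)) = 1 := le_antisymm (hx _ hbc) (not_lt.mp hn)
  rw [map_mul, h7, one_mul] at hp'
  rw [Valuation.map_add_eq_of_lt_left, h7] at hs'
  · exact lt_irrefl _ hs'
  · rwa [h7]

theorem all_or_none (hp : p.Prime) (h5 : 5 ≤ p) (h2 : ∀ n : ℤ, n ≠ 0 → v (n : K) = 1) (hB : v B < 1)
    (t : Tor p 1 B x) (hx : ∀ c, c ≠ 0 → v (x c) ≤ 1) :
    (∀ c, c ≠ 0 → v (x c) < 1) ∨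
      ∀ c, c ≠ 0 → v (x c) = 1 ∧ v (ff 1 B (x c)) = 1 := by
  have : Fact p.Prime := ⟨hp⟩
  by_cases hI : ∃ c, c ≠ 0 ∧ v (x c) < 1
  · obtain ⟨c, hc, hvc⟩ := hI
    left
    intro b hb
    by_contra hn
    have hvb : v (x b) = 1 := le_antisymm (hx b hb) (not_lt.mp hn)
    have key : ∀ k : ℕ, (k : ZMod p) * b + c ≠ 0 ∧ v (x ((k : ZMod p) * b + c)) < 1 := by
      intro k
      induction k with
      | zero => simpa using ⟨hc, hvc⟩
      | succ k ih =>
        have h3 := step_sum h2 hB t hx hb ih.1 hvb ih.2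
        have e : ((k + 1 : ℕ) : ZMod p) * b + c = b + ((k : ZMod p) * b + c) := by
          push_cast; ring
        rw [e]
        exact h3
    obtain ⟨k, hk⟩ := ZMod.natCast_zmod_surjective (-c / b)
    apply (key k).1
    rw [hk]
    field_simp
    ring
  · right
    push Not at hI
    have hu : ∀ c, c ≠ 0 → v (x c) = 1 := fun c hc => le_antisymm (hx c hc) (hI c hc)
    intro c hc
    refine ⟨hu c hc, ?_⟩
    have e4 := v_four h2
    have e8 := v_eight h2
    have h2c : (2 : ZMod p) * c ≠ 0 := by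
      refine mul_ne_zero ?_ hc
      intro h3
      have h4 : ((2 : ℕ) : ZMod p) = 0 := by exact_mod_cast h3
      rw [ZMod.natCast_eq_zero_iff] at h4
      have := Nat.le_of_dvd (by norm_num) h4
      omega
    have hd := congrArg v (t.dbl c hc)
    have hrhs : v (x c ^ 4 - 8 * B * x c - 4 * 1 * B) = 1 := by
      have h8 : v (8 * B * x c) < 1 := by
        rw [map_mul, map_mul, e8, one_mul, hu c hc, mul_one]; exact hB
      have h4 : v (4 * 1 * B) < 1 := by
        rw [mul_one, map_mul, e4, one_mul]; exact hB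
      have h9 : v (x c ^ 4) = 1 := by rw [map_pow, hu c hc, one_pow]
      have h10 : v (x c ^ 4 - 8 * B * x c) = 1 := by
        rw [Valuation.map_sub_eq_of_lt_left, h9]
        rwa [h9]
      rw [Valuation.map_sub_eq_of_lt_left, h10]
      rwa [h10]
    rw [hrhs, map_mul, map_mul, e4, one_mul] at hd
    have hff : v (ff 1 B (x c)) ≤ 1 := by
      unfold ff
      refine (Valuation.map_add _ _ _).trans (max_le
        ((Valuation.map_add _ _ _).trans (max_le ?_ ?_)) hB.le)
      · rw [map_pow, hu c hc, one_pow]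
      · rw [one_mul, map_pow, hu c hc, one_pow]
    rw [hu _ h2c, one_mul] at hd
    exact hd

end Pool.Agent.TJG
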