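import Pool.Agent.Lib_helper99.TJG.D
import Pool.Agent.Lib_helper99.TJG.L5
import Pool.Agent.Lib_helper40.TJ.V5

/-!
# The independence for the curves with a transcendental invariant
-/

set_option autoImplicit false
set_option linter.unusedSectionVars false

namespace Pool.Agent.TJG

open WeierstrassCurve.Affine
open Pool.Agent.TJ (ff Tor gax Res0 TwoTypes)

theorem twoTypes {K : Type*} [Field K] {p : ℕ} (hp : p.Prime) (h5 : 5 ≤ p) : TwoTypes p K := by
  intro O B x hv t _ hB
  exact all_or_none hp h5 hv hB t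
    (fun c hc => TJ.int hv hp h5 t (by rw [map_one]) hB.le hc)

/-- the first order computation at the node -/
def FirstOrder (K : Type*) [Field K] (p : ℕ) [NeZero p] : Prop :=
  ∀ (O : ValuationSubring K) (B : K) (x : ZMod p → K), Res0 O.valuation →
    Tor p 1 B x → B ≠ 0 → O.valuation B < 1 →
      (∀ c, c ≠ 0 → O.valuation (x c) = 1 ∧ O.valuation (ff 1 B (x c)) = 1) →
        ∀ n : ZMod p → ℤ, (∀ c, n (-c) = n c) → n 0 = 0 → ∑ c, n c = 0 →
          ∏ c, gax 1 B x c ^ n c = 1 → ∀ c, n c = 0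

lemma prod_factor {K : Type*} [Field K] {p : ℕ} [NeZero p] {f g : ZMod p → K} {s : K} (hs : s ≠ 0)
    (h : ∀ c, c ≠ 0 → f c = s * g c) {n : ZMod p → ℤ} (n0 : n 0 = 0) (ns : ∑ c, n c = 0) :
    ∏ c, f c ^ n c = ∏ c, g c ^ n c := by
  have h1 : ∀ c, f c ^ n c = s ^ n c * g c ^ n c := by
    intro c
    by_cases hc : c = 0
    · rw [hc, n0, zpow_zero, zpow_zero, zpow_zero, one_mul]
    · rw [h c hc, mul_zpow]
  rw [Finset.prod_congr rfl fun c _ => h1 c, Finset.prod_mul_distrib]
  have h2 : ∏ c, s ^ n c = s ^ (∑ c, n c) := by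
    induction (Finset.univ : Finset (ZMod p)) using Finset.cons_induction with
    | empty => simp
    | cons a t ha ih => rw [Finset.prod_cons, Finset.sum_cons, zpow_add₀ hs, ih]
  rw [h2, ns, zpow_zero, one_mul]

theorem siegel_of {k : Type*} [Field k] [DecidableEq k] [CharZero k]
    (W : WeierstrassCurve.Affine k) (H : AddSubgroup W.Point) [Fintype H]
    {p : ℕ} [NeZero p] (hc : Fintype.card H = p) (hp : p.Prime) (h5 : 5 ≤ p)
    (hj : Transcendental ℚ (W.c₄ ^ 3 / W.Δ)) (h7 : FirstOrder (AlgebraicClosure k) p) :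
    FK4.SiegelIndep H := by
  obtain ⟨B, x, e, s, hs, hB, t, hgam⟩ := exists_tor W H hc hp h5 hj
  obtain ⟨O, B', x', s', hO, hs', t', hB', hv, hx, hgax⟩ :=
    TJ.place (twoTypes hp h5) hp h5 hB t
  intro m me m0 ms mp
  have s1 : ∑ c : ZMod p, m (e c) = 0 := by
    rw [← ms]
    exact Equiv.sum_comp e.toEquiv m
  have s0 : m (e 0) = 0 := by rw [map_zero, m0]
  have hn : ∀ c : ZMod p, m (e c) = 0 := by
    apply h7 O B' x' hO t' hB' hv hx (fun c => m (e c)) _ s0 s1 _
    · intro c
      show m (e (-c)) = m (e c)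
      rw [map_neg, me]
    · rw [prod_factor hs' hgax (n := fun c => m (e c)) s0 s1,
        ← prod_factor hs hgam (n := fun c => m (e c)) s0 s1]
      have h8 := congrArg (algebraMap k (AlgebraicClosure k)) mp
      rw [map_one, map_prod, ← Equiv.prod_comp e.toEquiv] at h8
      rw [← h8]
      refine Finset.prod_congr rfl fun c _ => ?_
      rw [map_zpow₀]
      rfl
  intro a
  have := hn (e.symm a)
  rwa [AddEquiv.apply_symm_apply] at this

end Pool.Agent.TJG
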